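import Pool.Agent.Helper49.RC.StS
import Pool.Agent.Helper29.RC.M_MIX

/-! # Project RC (MP_b21509_co), track B, module MIXE: mixed area in Fourier form for arbitrary edges -/

set_option autoImplicit false

open MeasureTheory Set Filter Metric

namespace Pool.Agent.Helper7.RC

open Helper49.RC Helper97.CB Helper49.LT Pool.Agent.Helper29.RC

/-- the data: three bounded measurable edges -/
structure EB (e0 e1 e2 : ℝ → ℂ) (C : ℝ) : Prop where
  m0 : Measurable e0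
  m1 : Measurable e1
  m2 : Measurable e2
  b0 : ∀ t, ‖e0 t‖ ≤ C
  b1 : ∀ t, ‖e1 t‖ ≤ C
  b2 : ∀ t, ‖e2 t‖ ≤ C

/-- sum of the moments of the edges -/
noncomputable def ES (e0 e1 e2 : ℝ → ℂ) (n : ℕ) (t : ℝ) : ℂ :=
  nn n (e0 t) + nn n (e1 t) + nn n (e2 t)

variable {e0 e1 e2 : ℝ → ℂ} {C : ℝ}

theorem C_nonneg (h : EB e0 e1 e2 C) : 0 ≤ C := (norm_nonneg _).trans (h.b0 0)

theorem ES_meas (h : EB e0 e1 e2 C) (n : ℕ) : Measurable (ES e0 e1 e2 n) :=
  (((nn_meas n).comp h.m0).add ((nn_meas n).comp h.m1)).add ((nn_meas n).comp h.m2)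

theorem ES_le (h : EB e0 e1 e2 C) (n : ℕ) (t : ℝ) : ‖ES e0 e1 e2 n t‖ ≤ 3 * C := by
  have h0 := (norm_nn n (e0 t)).trans (h.b0 t)
  have h1 := (norm_nn n (e1 t)).trans (h.b1 t)
  have h2 := (norm_nn n (e2 t)).trans (h.b2 t)
  have h3 := norm_add_le (nn n (e0 t) + nn n (e1 t)) (nn n (e2 t))
  have h4 := norm_add_le (nn n (e0 t)) (nn n (e1 t))
  unfold ES
  linarith

theorem ES_ii (h : EB e0 e1 e2 C) (n : ℕ) (a b : ℝ) :
    IntervalIntegrable (ES e0 e1 e2 n) volume a b :=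
  ii_bdd (ES_meas h n).aestronglyMeasurable (ES_le h n)

theorem sgE_eq (n : ℕ) :
    sgE e0 e1 e2 n = (1 / (2 * Real.pi) : ℂ) * ∫ t in (0 : ℝ)..(2 * Real.pi), ES e0 e1 e2 n t := rfl

theorem sgE_le (h : EB e0 e1 e2 C) (n : ℕ) : ‖sgE e0 e1 e2 n‖ ≤ 3 * C := by
  have hpi := Real.pi_pos
  rw [sgE_eq, norm_mul]
  have h1 := intervalIntegral.norm_integral_le_of_norm_le_const (a := 0) (b := 2 * Real.pi)
    (f := ES e0 e1 e2 n) (C := 3 * C) (fun t _ => ES_le h n t)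
  rw [sub_zero, abs_of_pos (by positivity)] at h1
  have h2 : ‖(1 / (2 * Real.pi) : ℂ)‖ = 1 / (2 * Real.pi) := by
    have : (1 / (2 * Real.pi) : ℂ) = ((1 / (2 * Real.pi) : ℝ) : ℂ) := by push_cast; rfl
    rw [this, Complex.norm_real, Real.norm_of_nonneg (by positivity)]
  rw [h2]
  calc 1 / (2 * Real.pi) * ‖∫ t in (0 : ℝ)..(2 * Real.pi), ES e0 e1 e2 n t‖
      ≤ 1 / (2 * Real.pi) * (3 * C * (2 * Real.pi)) := mul_le_mul_of_nonneg_left h1 (by positivity)
    _ = 3 * C := by field_simp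

theorem sgE_one (h : EB e0 e1 e2 C)
    (ha : ∀ t, e0 (t + Real.pi) + e1 (t + Real.pi) + e2 (t + Real.pi) = -(e0 t + e1 t + e2 t)) :
    sgE e0 e1 e2 1 = 0 := by
  rw [sgE_eq]
  have h0 : ∀ t, ES e0 e1 e2 1 t = (starRingEnd ℂ) (e0 t + e1 t + e2 t) := by
    intro t
    unfold ES
    rw [nn_one, nn_one, nn_one, ← map_add, ← map_add]
  have h1 : ∀ t, ES e0 e1 e2 1 (t + Real.pi) = - ES e0 e1 e2 1 t := by
    intro t
    rw [h0, h0, ha, map_neg]
  have h2 := intervalIntegral.integral_add_adjacent_intervals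
    (ES_ii h 1 0 Real.pi) (ES_ii h 1 Real.pi (2 * Real.pi))
  have h3 := intervalIntegral.integral_comp_add_right (a := 0) (b := Real.pi)
    (ES e0 e1 e2 1) Real.pi
  simp only [h1] at h3
  rw [intervalIntegral.integral_neg, zero_add, ← two_mul] at h3
  rw [← h2, ← h3, add_neg_cancel, mul_zero]

theorem sgE_zero : ∃ s : ℝ, 0 ≤ s ∧ sgE e0 e1 e2 0 = (s : ℂ) ∧
    s = 1 / (2 * Real.pi) * ∫ t in (0 : ℝ)..(2 * Real.pi),
      (‖e0 t‖ + ‖e1 t‖ + ‖e2 t‖) := by
  have hpi := Real.pi_pos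
  refine ⟨_, ?_, ?_, rfl⟩
  · refine mul_nonneg (by positivity) ?_
    refine intervalIntegral.integral_nonneg (by positivity) fun t _ => ?_
    positivity
  · rw [sgE_eq]
    have h1 : ∀ t, ES e0 e1 e2 0 t = ((‖e0 t‖ + ‖e1 t‖ + ‖e2 t‖ : ℝ) : ℂ) := by
      intro t
      unfold ES nn
      simp only [pow_zero, mul_one]
      push_cast
      rfl
    simp only [h1]
    rw [intervalIntegral.integral_ofReal]
    push_cast
    rfl

theorem hasSum_VVE {K : Set ℂ} {R : ℝ} (hR : ∀ z ∈ K, ‖z‖ ≤ R) (h0 : (0 : ℂ) ∈ K)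
    (hs : Summable (fun n : ℕ => ‖hf K n‖)) (h : EB e0 e1 e2 C) {s : ℝ}
    (hs0 : s = 1 / (2 * Real.pi) * ∫ t in (0 : ℝ)..(2 * Real.pi),
      (‖e0 t‖ + ‖e1 t‖ + ‖e2 t‖)) :
    HasSum (fun n : ℕ => 2 * (hf K n * (starRingEnd ℂ) (sgE e0 e1 e2 n)).re)
      (VVE K e0 e1 e2 + (hf K 0).re * s) := by
  have hpi := Real.pi_pos
  have hC0 : 0 ≤ C := C_nonneg h
  have hne : K.Nonempty := ⟨0, h0⟩
  have hR0 : 0 ≤ R := (norm_nonneg _).trans (hR 0 h0)
  have hspm : Measurable (sp K) := (sp_cont hR hne).measurable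
  -- pointwise
  have hpt : ∀ t, HasSum (fun n : ℕ => 2 * (hf K n * (starRingEnd ℂ) (ES e0 e1 e2 n t)).re)
      ((sp K (e0 t) + sp K (e1 t) + sp K (e2 t))
        + (hf K 0).re * (‖e0 t‖ + ‖e1 t‖ + ‖e2 t‖)) := by
    intro t
    have h1 := ((hasSum_sp hR h0 hs (e0 t)).add (hasSum_sp hR h0 hs (e1 t))).add
      (hasSum_sp hR h0 hs (e2 t))
    have h2 : sp K (e0 t) + (hf K 0).re * ‖e0 t‖ + (sp K (e1 t) + (hf K 0).re * ‖e1 t‖)
        + (sp K (e2 t) + (hf K 0).re * ‖e2 t‖)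
        = (sp K (e0 t) + sp K (e1 t) + sp K (e2 t))
        + (hf K 0).re * (‖e0 t‖ + ‖e1 t‖ + ‖e2 t‖) := by ring
    rw [h2] at h1
    refine h1.congr_fun fun n => ?_
    unfold ES
    rw [map_add, map_add, mul_add, mul_add, Complex.add_re, Complex.add_re]
    ring
  have hFm : ∀ n, Measurable (fun t => 2 * (hf K n * (starRingEnd ℂ) (ES e0 e1 e2 n t)).re) := by
    intro n
    have h1 := ES_meas h n
    have h2 : Measurable (fun t => (starRingEnd ℂ) (ES e0 e1 e2 n t)) :=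
      Complex.continuous_conj.measurable.comp h1
    exact (Complex.measurable_re.comp (h2.const_mul (hf K n))).const_mul 2
  have hFb : ∀ n t, ‖2 * (hf K n * (starRingEnd ℂ) (ES e0 e1 e2 n t)).re‖ ≤
      (6 * C) * ‖hf K n‖ := by
    intro n t
    rw [norm_mul, Real.norm_of_nonneg (by norm_num : (0 : ℝ) ≤ 2), Real.norm_eq_abs]
    have h1 := Complex.abs_re_le_norm (hf K n * (starRingEnd ℂ) (ES e0 e1 e2 n t))
    rw [norm_mul, RCLike.norm_conj] at h1
    have h2 := mul_le_mul_of_nonneg_left (ES_le h n t) (norm_nonneg (hf K n))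
    linarith
  have hint := intervalIntegral.hasSum_integral_of_dominated_convergence (μ := volume)
    (a := 0) (b := 2 * Real.pi)
    (F := fun (n : ℕ) t => 2 * (hf K n * (starRingEnd ℂ) (ES e0 e1 e2 n t)).re)
    (f := fun t => (sp K (e0 t) + sp K (e1 t) + sp K (e2 t))
        + (hf K 0).re * (‖e0 t‖ + ‖e1 t‖ + ‖e2 t‖))
    (fun n _ => (6 * C) * ‖hf K n‖)
    (fun n => (hFm n).aestronglyMeasurable)
    (fun n => ae_of_all _ fun t _ => hFb n t)
    (ae_of_all _ fun t _ => hs.mul_left (6 * C))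
    intervalIntegrable_const
    (ae_of_all _ fun t _ => hpt t)
  have hint2 := hint.mul_left (1 / (2 * Real.pi))
  -- the value
  have hi1 : IntervalIntegrable (fun t => sp K (e0 t) + sp K (e1 t) + sp K (e2 t))
      volume 0 (2 * Real.pi) := by
    refine ii_bdd (C := 3 * (R * C)) ?_ ?_
    · exact (((hspm.comp h.m0).add (hspm.comp h.m1)).add
        (hspm.comp h.m2)).aestronglyMeasurable
    · intro t
      rw [Real.norm_of_nonneg (add_nonneg (add_nonneg (sp_nonneg hR h0 _) (sp_nonneg hR h0 _))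
        (sp_nonneg hR h0 _))]
      have a0 := (sp_le_norm hR hne (e0 t)).trans (mul_le_mul_of_nonneg_left (h.b0 t) hR0)
      have a1 := (sp_le_norm hR hne (e1 t)).trans (mul_le_mul_of_nonneg_left (h.b1 t) hR0)
      have a2 := (sp_le_norm hR hne (e2 t)).trans (mul_le_mul_of_nonneg_left (h.b2 t) hR0)
      linarith
  have hi2 : IntervalIntegrable (fun t => ‖e0 t‖ + ‖e1 t‖ + ‖e2 t‖)
      volume 0 (2 * Real.pi) := by
    refine ii_bdd (C := 3 * C) ?_ ?_
    · exact ((h.m0.norm.add h.m1.norm).add h.m2.norm).aestronglyMeasurable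
    · intro t
      rw [Real.norm_of_nonneg (by positivity)]
      have a0 := h.b0 t
      have a1 := h.b1 t
      have a2 := h.b2 t
      linarith
  have hval : 1 / (2 * Real.pi) * (∫ t in (0 : ℝ)..(2 * Real.pi),
      ((sp K (e0 t) + sp K (e1 t) + sp K (e2 t))
        + (hf K 0).re * (‖e0 t‖ + ‖e1 t‖ + ‖e2 t‖)))
      = VVE K e0 e1 e2 + (hf K 0).re * s := by
    rw [intervalIntegral.integral_add hi1 (hi2.const_mul _), intervalIntegral.integral_const_mul,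
      hs0]
    unfold VVE
    ring
  rw [hval] at hint2
  refine hint2.congr_fun fun n => ?_
  -- the terms
  have hi3 : IntervalIntegrable (fun t => hf K n * (starRingEnd ℂ) (ES e0 e1 e2 n t))
      volume 0 (2 * Real.pi) := by
    refine ii_bdd (C := ‖hf K n‖ * (3 * C)) ?_ ?_
    · exact ((Complex.continuous_conj.measurable.comp (ES_meas h n)).const_mul
        _).aestronglyMeasurable
    · intro t
      rw [norm_mul, RCLike.norm_conj]
      exact mul_le_mul_of_nonneg_left (ES_le h n t) (norm_nonneg _)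
  have h5 := Complex.reCLM.intervalIntegral_comp_comm hi3
  have h6 : ∫ t in (0 : ℝ)..(2 * Real.pi), 2 * (hf K n * (starRingEnd ℂ) (ES e0 e1 e2 n t)).re
      = 2 * (hf K n * (starRingEnd ℂ) (∫ t in (0 : ℝ)..(2 * Real.pi), ES e0 e1 e2 n t)).re := by
    rw [intervalIntegral.integral_const_mul]
    congr 1
    refine h5.trans ?_
    rw [intervalIntegral.integral_const_mul, intervalIntegral.intervalIntegral_conj]
    rfl
  rw [h6, sgE_eq, map_mul]
  have h7 : (starRingEnd ℂ) (1 / (2 * Real.pi) : ℂ) = ((1 / (2 * Real.pi) : ℝ) : ℂ) := by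
    have h1 : (1 / (2 * Real.pi) : ℂ) = ((1 / (2 * Real.pi) : ℝ) : ℂ) := by
      push_cast
      rfl
    rw [h1, Complex.conj_ofReal]
  rw [h7]
  have h8 : hf K n * (((1 / (2 * Real.pi) : ℝ) : ℂ) *
      (starRingEnd ℂ) (∫ t in (0 : ℝ)..(2 * Real.pi), ES e0 e1 e2 n t))
      = ((1 / (2 * Real.pi) : ℝ) : ℂ) * (hf K n *
      (starRingEnd ℂ) (∫ t in (0 : ℝ)..(2 * Real.pi), ES e0 e1 e2 n t)) := by ring
  rw [h8, Complex.re_ofReal_mul]
  ring

theorem hMIXE (h : StHfo) : StMixE := by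
  intro K e0 e1 e2 C hK h0i h2 hm0 hm1 hm2 hb0 hb1 hb2 hanti
  have hA : EB e0 e1 e2 C := ⟨hm0, hm1, hm2, hb0, hb1, hb2⟩
  have hC0 : 0 ≤ C := C_nonneg hA
  have hpi := Real.pi_pos
  have h0 : (0 : ℂ) ∈ K := interior_subset h0i
  obtain ⟨R, hR0, hR⟩ := bd_of_body hK
  obtain ⟨hsum, har⟩ := h K hK h0i
  have hs := sum_hf hsum
  obtain ⟨a, ha0, ha⟩ := hf_zero (R := R) hR h0
  obtain ⟨s, hs0, hsg, hsv⟩ := sgE_zero (e0 := e0) (e1 := e1) (e2 := e2)
  have hVV := hasSum_VVE hR h0 hs hA hsv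
  have hVV3 := (hasSum_nat_add_iff' 3).2 hVV
  -- the first three terms
  have e3 : VVE K e0 e1 e2 + (hf K 0).re * s - ∑ i ∈ Finset.range 3,
      2 * (hf K i * (starRingEnd ℂ) (sgE e0 e1 e2 i)).re = VVE K e0 e1 e2 - a * s := by
    rw [Finset.sum_range_succ, Finset.sum_range_succ, Finset.sum_range_one, h2,
      sgE_one hA hanti, ha, hsg,
      Complex.conj_ofReal, ← Complex.ofReal_mul, Complex.ofReal_re, Complex.ofReal_re]
    simp
    ring
  rw [e3] at hVV3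
  -- the two series
  have hden : ∀ n : ℕ, (0 : ℝ) < ((n : ℝ) + 3) ^ 2 - 1 := by
    intro n
    have : (0 : ℝ) ≤ n := Nat.cast_nonneg n
    nlinarith
  have hf1 : Summable (fun n : ℕ => 2 * ((((n : ℝ) + 3) ^ 2 - 1) * ‖hf K (n + 3)‖ ^ 2)) := by
    have h1 := (summable_nat_add_iff 3).2 hsum
    refine Summable.mul_left 2 (Summable.of_nonneg_of_le (fun n => ?_) (fun n => ?_) h1)
    · exact mul_nonneg (hden n).le (sq_nonneg _)
    · push_cast
      refine mul_le_mul_of_nonneg_right ?_ (sq_nonneg _)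
      linarith
  have hg1 : Summable (fun n : ℕ => 2 * (‖sgE e0 e1 e2 (n + 3)‖ ^ 2 / (((n : ℝ) + 3) ^ 2 - 1))) := by
    have h1 : Summable (fun n : ℕ => 1 / (((n + 1 : ℕ) : ℝ)) ^ 2) :=
      (summable_nat_add_iff 1).2 (Real.summable_one_div_nat_pow.2 (by norm_num))
    refine Summable.mul_left 2 (Summable.of_nonneg_of_le (fun n => ?_) (fun n => ?_)
      (h1.mul_left ((3 * C) ^ 2)))
    · exact div_nonneg (sq_nonneg _) (hden n).le
    · have h3 : ‖sgE e0 e1 e2 (n + 3)‖ ^ 2 ≤ (3 * C) ^ 2 :=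
        pow_le_pow_left₀ (norm_nonneg _) (sgE_le hA (n + 3)) 2
      have hn : (0 : ℝ) ≤ n := Nat.cast_nonneg n
      have h4 : (((n + 1 : ℕ) : ℝ)) ^ 2 ≤ ((n : ℝ) + 3) ^ 2 - 1 := by
        push_cast
        nlinarith
      calc ‖sgE e0 e1 e2 (n + 3)‖ ^ 2 / (((n : ℝ) + 3) ^ 2 - 1)
          ≤ (3 * C) ^ 2 / (((n : ℝ) + 3) ^ 2 - 1) :=
            div_le_div_of_nonneg_right h3 (hden n).le
        _ ≤ (3 * C) ^ 2 / (((n + 1 : ℕ) : ℝ)) ^ 2 :=
            div_le_div_of_nonneg_left (by positivity) (by positivity) h4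
        _ = _ := by rw [mul_one_div]
  have hcs := cs_tsum hVV3 hf1 hg1 (fun n => mul_nonneg (by norm_num)
    (mul_nonneg (hden n).le (sq_nonneg _))) (fun n => mul_nonneg (by norm_num)
    (div_nonneg (sq_nonneg _) (hden n).le)) (by
      intro n
      have h3 := Complex.abs_re_le_norm (hf K (n + 3) * (starRingEnd ℂ) (sgE e0 e1 e2 (n + 3)))
      rw [norm_mul, RCLike.norm_conj] at h3
      have h4 := pow_le_pow_left₀ (abs_nonneg _) h3 2
      rw [sq_abs] at h4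
      have h5 := (hden n).ne'
      calc (2 * (hf K (n + 3) * (starRingEnd ℂ) (sgE e0 e1 e2 (n + 3))).re) ^ 2
          = 4 * (hf K (n + 3) * (starRingEnd ℂ) (sgE e0 e1 e2 (n + 3))).re ^ 2 := by ring
        _ ≤ 4 * (‖hf K (n + 3)‖ * ‖sgE e0 e1 e2 (n + 3)‖) ^ 2 :=
            mul_le_mul_of_nonneg_left h4 (by norm_num)
        _ = _ := by field_simp; ring)
  rw [tsum_mul_left, tsum_mul_left] at hcs
  -- the area
  have hX : ∑' n : ℕ, (((n : ℝ) + 1) ^ 2 - 1) * ‖hf K (n + 1)‖ ^ 2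
      = ∑' n : ℕ, (((n : ℝ) + 3) ^ 2 - 1) * ‖hf K (n + 3)‖ ^ 2 := by
    have hg : Summable (fun n : ℕ => (((n : ℝ) + 1) ^ 2 - 1) * ‖hf K (n + 1)‖ ^ 2) := by
      have h1 := (summable_nat_add_iff 1).2 hsum
      refine Summable.of_nonneg_of_le (fun n => ?_) (fun n => ?_) h1
      · refine mul_nonneg ?_ (sq_nonneg _)
        have : (0 : ℝ) ≤ n := Nat.cast_nonneg n
        nlinarith
      · push_cast
        refine mul_le_mul_of_nonneg_right ?_ (sq_nonneg _)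
        linarith
    rw [← hg.sum_add_tsum_nat_add 2, Finset.sum_range_succ, Finset.sum_range_one]
    have e1 : hf K (1 + 1) = 0 := h2
    rw [e1]
    simp only [Nat.cast_zero, norm_zero]
    have e2 : ∀ n : ℕ, ((((n + 2 : ℕ) : ℝ) + 1) ^ 2 - 1) * ‖hf K (n + 2 + 1)‖ ^ 2
        = (((n : ℝ) + 3) ^ 2 - 1) * ‖hf K (n + 3)‖ ^ 2 := by
      intro n
      push_cast
      ring
    simp only [e2]
    norm_num
  rw [hX] at har
  have hna : ‖hf K 0‖ = a := by rw [ha, Complex.norm_real, Real.norm_of_nonneg ha0]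
  have hns : ‖sgE e0 e1 e2 0‖ = s := by rw [hsg, Complex.norm_real, Real.norm_of_nonneg hs0]
  rw [hna] at har
  constructor
  · unfold VVE
    refine mul_nonneg (by positivity) ?_
    refine intervalIntegral.integral_nonneg (by positivity) fun t _ => ?_
    exact add_nonneg (add_nonneg (sp_nonneg hR h0 _) (sp_nonneg hR h0 _)) (sp_nonneg hR h0 _)
  · have hX0 : 0 ≤ 2 * ∑' n : ℕ, (((n : ℝ) + 3) ^ 2 - 1) * ‖hf K (n + 3)‖ ^ 2 :=
      mul_nonneg (by norm_num) (tsum_nonneg fun n => mul_nonneg (hden n).le (sq_nonneg _))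
    have hY0 : 0 ≤ 2 * ∑' n : ℕ, ‖sgE e0 e1 e2 (n + 3)‖ ^ 2 / (((n : ℝ) + 3) ^ 2 - 1) :=
      mul_nonneg (by norm_num) (tsum_nonneg fun n => div_nonneg (sq_nonneg _) (hden n).le)
    have hfin := aczel ha0 hs0 hX0 hY0 hcs ENNReal.toReal_nonneg hpi har
    have e4 : a * s + (VVE K e0 e1 e2 - a * s) = VVE K e0 e1 e2 := by ring
    rw [e4] at hfin
    unfold FME
    rw [hns]
    exact hfin

end Pool.Agent.Helper7.RC
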