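import Pool.Agent.Helper56.RC.StF

/-! # Project RC (MP_b21509_co): module BLKB (block inequality of option B) -/

set_option autoImplicit false

open MeasureTheory Set Filter Metric

namespace Pool.Agent.Helper7.RC.B

open Helper49.LT Helper49.RC Helper87.RC Helper44.RC Helper56.RC

/-- the basic fact on Hermitian forms with real coefficients -/
theorem quad {P R C P0 R0 C0 : ℝ} (hP0 : 0 < P0) (hP : P0 ≤ P) (hR0 : 0 ≤ R0) (hR : R0 ≤ R)
    (hC : |C| ≤ C0) (h : C0 ^ 2 ≤ P0 * R0) (x y s t : ℝ) :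
    0 ≤ P * (x ^ 2 + y ^ 2) + R * (s ^ 2 + t ^ 2) + 2 * C * (x * s - y * t) := by
  have hPpos : 0 < P := lt_of_lt_of_le hP0 hP
  have h1 : C ^ 2 ≤ P * R := by
    have h2 : C ^ 2 ≤ C0 ^ 2 := by
      rw [← sq_abs C]
      exact pow_le_pow_left₀ (abs_nonneg C) hC 2
    have h3 : P0 * R0 ≤ P * R := mul_le_mul hP hR hR0 hPpos.le
    linarith
  have h4 : P * (P * (x ^ 2 + y ^ 2) + R * (s ^ 2 + t ^ 2) + 2 * C * (x * s - y * t)) =
      (P * x + C * s) ^ 2 + (P * y - C * t) ^ 2 + (P * R - C ^ 2) * (s ^ 2 + t ^ 2) := by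
    ring
  have h5 : 0 ≤ P * (P * (x ^ 2 + y ^ 2) + R * (s ^ 2 + t ^ 2) + 2 * C * (x * s - y * t)) := by
    rw [h4]
    have h6 : 0 ≤ (P * R - C ^ 2) * (s ^ 2 + t ^ 2) := mul_nonneg (by linarith) (by positivity)
    positivity
  exact nonneg_of_mul_nonneg_right h5 hPpos

theorem nsq (u : ℂ) : ‖u‖ ^ 2 = u.re ^ 2 + u.im ^ 2 := by
  rw [Complex.sq_norm, Complex.normSq_apply]
  ring

theorem nsq2 (a b : ℝ) (u w : ℂ) : ‖(a : ℂ) * u + (b : ℂ) * (starRingEnd ℂ) w‖ ^ 2 =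
    a ^ 2 * (u.re ^ 2 + u.im ^ 2) + b ^ 2 * (w.re ^ 2 + w.im ^ 2)
      + 2 * (a * b) * (u.re * w.re - u.im * w.im) := by
  rw [nsq]
  simp only [Complex.add_re, Complex.add_im, Complex.mul_re, Complex.mul_im, Complex.ofReal_re,
    Complex.ofReal_im, Complex.conj_re, Complex.conj_im]
  ring

theorem nsq3 (a b : ℝ) (u w : ℂ) : ‖(a : ℂ) * u - (b : ℂ) * (starRingEnd ℂ) w‖ ^ 2 =
    a ^ 2 * (u.re ^ 2 + u.im ^ 2) + b ^ 2 * (w.re ^ 2 + w.im ^ 2)
      - 2 * (a * b) * (u.re * w.re - u.im * w.im) := by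
  rw [nsq]
  simp only [Complex.sub_re, Complex.sub_im, Complex.mul_re, Complex.mul_im, Complex.ofReal_re,
    Complex.ofReal_im, Complex.conj_re, Complex.conj_im]
  ring

theorem nsq4 (u w : ℂ) : ‖u + (starRingEnd ℂ) w‖ ^ 2 =
    (u.re ^ 2 + u.im ^ 2) + (w.re ^ 2 + w.im ^ 2) + 2 * (u.re * w.re - u.im * w.im) := by
  rw [nsq]
  simp only [Complex.add_re, Complex.add_im, Complex.conj_re, Complex.conj_im]
  ring

theorem nsq5 (u w : ℂ) : ‖(3 / 2 : ℂ) * (starRingEnd ℂ) w - (1 / 2 : ℂ) * u‖ ^ 2 =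
    1 / 4 * (u.re ^ 2 + u.im ^ 2) + 9 / 4 * (w.re ^ 2 + w.im ^ 2)
      - 3 / 2 * (u.re * w.re - u.im * w.im) := by
  have h : (3 / 2 : ℂ) * (starRingEnd ℂ) w - (1 / 2 : ℂ) * u =
      ((-1 / 2 : ℝ) : ℂ) * u + ((3 / 2 : ℝ) : ℂ) * (starRingEnd ℂ) w := by
    push_cast
    ring
  rw [h, nsq2]
  ring

/-- the case `k = 0` -/
theorem blk0 (d ρ : ℝ) (θ : ℤ → ℝ) (B1 B2 G1 G2 P0 R0 C0 : ℝ)
    (hB1 : bC θ d ρ 3 ≤ B1) (hB2 : bC θ d ρ (-1) ≤ B2)
    (hG1 : G1 ≤ Helper56.RC.gam d ρ 3) (hG2 : Helper56.RC.gam d ρ (-1) ≤ G2)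
    (hP0 : 0 < P0) (hR0 : 0 ≤ R0) (h : C0 ^ 2 ≤ P0 * R0)
    (hP : P0 ≤ 574 / 100 + 1 / 3 + 38 / 10 * G1 / 3 + 1 / 6
      - FSc (1 / 20) (33 / 200) / 4 - B1 - 3 / (8 * (1 + 33 / 200)) * ((gg (1 / 20) 0 - 33 / 200 - 2) / 3) ^ 2)
    (hR : R0 ≤ 574 / 100 - 1 - 38 / 10 * G2 + 3 / 2
      - FSc (1 / 20) (33 / 200) / 4 - B2 - 3 / (8 * (1 + 33 / 200)) * (2 - gg (1 / 20) 0 - 2 * (33 / 200)) ^ 2)
    (hC : |-(1 / 2) - FSc (1 / 20) (33 / 200) / 4 - 3 / (8 * (1 + 33 / 200)) *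
      (((gg (1 / 20) 0 - 33 / 200 - 2) / 3) * (2 - gg (1 / 20) 0 - 2 * (33 / 200)))| ≤ C0) (u w : ℂ) :
    (bC θ d ρ (2 * ((0 : ℕ) : ℤ) + 3) + 17 / 100 + if (0 : ℕ) = 0 then 3 else 0) * ‖u‖ ^ 2
    + (bC θ d ρ (-(2 * ((0 : ℕ) : ℤ) + 1)) + 17 / 100 + if (0 : ℕ) = 0 then 3 else 0) * ‖w‖ ^ 2
  ≤ QB (1 / 20) (33 / 200) d ρ 0 u w + 891 / 100 * (‖u‖ ^ 2 + ‖w‖ ^ 2)
    - FSc (1 / 20) (33 / 200) / 4 * ‖u + (starRingEnd ℂ) w‖ ^ 2 := by
  have hi1 : (2 * ((0 : ℕ) : ℤ) + 3) = 3 := by norm_num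
  have hi2 : (-(2 * ((0 : ℕ) : ℤ) + 1)) = -1 := by norm_num
  unfold QB
  rw [hi1, hi2, if_pos rfl, if_pos rfl, nsq5, nsq2, nsq4, nsq, nsq]
  have key := quad (P := 574 / 100 + 1 / 3 + 38 / 10 * Helper56.RC.gam d ρ 3 / 3 + 1 / 6
      - FSc (1 / 20) (33 / 200) / 4 - bC θ d ρ 3 - 3 / (8 * (1 + 33 / 200)) * ((gg (1 / 20) 0 - 33 / 200 - 2) / 3) ^ 2)
    (R := 574 / 100 - 1 - 38 / 10 * Helper56.RC.gam d ρ (-1) + 3 / 2
      - FSc (1 / 20) (33 / 200) / 4 - bC θ d ρ (-1) - 3 / (8 * (1 + 33 / 200)) * (2 - gg (1 / 20) 0 - 2 * (33 / 200)) ^ 2)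
    hP0 (by linarith) hR0 (by linarith) hC h u.re u.im w.re w.im
  push_cast
  nlinarith [key]

/-- the case `k ≥ 1` -/
theorem blk1 (d ρ : ℝ) (θ : ℤ → ℝ) (k : ℕ) (hk : k ≠ 0) (n1 n2 : ℤ) (K : ℝ) (hK : (k : ℝ) = K)
    (hn1 : (2 * (k : ℤ) + 3) = n1) (hn2 : (-(2 * (k : ℤ) + 1)) = n2) (A D : ℝ)
    (hA : gg (1 / 20) k + 33 / 200 * chu k = A) (hD : gg (1 / 20) k + 33 / 200 * chw k = D)
    (B1 B2 G1 G2 P0 R0 C0 : ℝ)
    (hB1 : bC θ d ρ n1 ≤ B1) (hB2 : bC θ d ρ n2 ≤ B2)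
    (hG1 : G1 ≤ Helper56.RC.gam d ρ n1) (hG2 : Helper56.RC.gam d ρ n2 ≤ G2)
    (hP0 : 0 < P0) (hR0 : 0 ≤ R0) (h : C0 ^ 2 ≤ P0 * R0)
    (hP : P0 ≤ 874 / 100 + (1 + 38 / 10 * G1) / (2 * K + 3)
      - FSc (1 / 20) (33 / 200) / 4 - B1 - A ^ 2 / (132 / 100) * ((2 * K + 1) / (2 * K + 3)))
    (hR : R0 ≤ 874 / 100 - (1 + 38 / 10 * G2) / (2 * K + 1)
      - FSc (1 / 20) (33 / 200) / 4 - B2 - D ^ 2 / (132 / 100) * ((2 * K + 3) / (2 * K + 1)))
    (hC : |-(FSc (1 / 20) (33 / 200) / 4) + A * D / (132 / 100)| ≤ C0) (u w : ℂ) :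
    (bC θ d ρ (2 * (k : ℤ) + 3) + 17 / 100 + if k = 0 then 3 else 0) * ‖u‖ ^ 2
    + (bC θ d ρ (-(2 * (k : ℤ) + 1)) + 17 / 100 + if k = 0 then 3 else 0) * ‖w‖ ^ 2
  ≤ QB (1 / 20) (33 / 200) d ρ k u w + 891 / 100 * (‖u‖ ^ 2 + ‖w‖ ^ 2)
    - FSc (1 / 20) (33 / 200) / 4 * ‖u + (starRingEnd ℂ) w‖ ^ 2 := by
  unfold QB
  rw [hn1, hn2, if_neg hk, if_neg hk, nsq3, nsq4, nsq, nsq, hA, hD, hK]
  have hK0 : 0 ≤ K := by rw [← hK]; positivity
  have hk3 : 0 < 2 * K + 3 := by linarith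
  have hk1 : 0 < 2 * K + 1 := by linarith
  have e1 : ((2 * K + 2) ^ 2 - 1) / (8 * (33 / 200)) * (A / (2 * K + 3)) ^ 2 =
      A ^ 2 / (132 / 100) * ((2 * K + 1) / (2 * K + 3)) := by
    field_simp
    ring
  have e2 : ((2 * K + 2) ^ 2 - 1) / (8 * (33 / 200)) * (D / (2 * K + 1)) ^ 2 =
      D ^ 2 / (132 / 100) * ((2 * K + 3) / (2 * K + 1)) := by
    field_simp
    ring
  have e3 : ((2 * K + 2) ^ 2 - 1) / (8 * (33 / 200)) * (A / (2 * K + 3) * (D / (2 * K + 1))) =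
      A * D / (132 / 100) := by
    field_simp
    ring
  have g1 : (1 + 38 / 10 * G1) / (2 * K + 3) ≤ (1 + 38 / 10 * Helper56.RC.gam d ρ n1) / (2 * K + 3) := by
    gcongr
  have g2 : (1 + 38 / 10 * Helper56.RC.gam d ρ n2) / (2 * K + 1) ≤ (1 + 38 / 10 * G2) / (2 * K + 1) := by
    gcongr
  have key := quad (P := 874 / 100 + (1 + 38 / 10 * Helper56.RC.gam d ρ n1) / (2 * K + 3)
      - FSc (1 / 20) (33 / 200) / 4 - bC θ d ρ n1 - A ^ 2 / (132 / 100) * ((2 * K + 1) / (2 * K + 3)))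
    (R := 874 / 100 - (1 + 38 / 10 * Helper56.RC.gam d ρ n2) / (2 * K + 1)
      - FSc (1 / 20) (33 / 200) / 4 - bC θ d ρ n2 - D ^ 2 / (132 / 100) * ((2 * K + 3) / (2 * K + 1)))
    hP0 (by linarith) hR0 (by linarith) hC h u.re u.im w.re w.im
  have e4 : 1 / (2 * K + 3) + (1 - 1 / 20) * (4 * Helper56.RC.gam d ρ n1 / (2 * K + 3)) =
      (1 + 38 / 10 * Helper56.RC.gam d ρ n1) / (2 * K + 3) := by
    field_simp
    ring
  have e5 : 1 / (2 * K + 1) + (1 - 1 / 20) * (4 * Helper56.RC.gam d ρ n2 / (2 * K + 1)) =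
      (1 + 38 / 10 * Helper56.RC.gam d ρ n2) / (2 * K + 1) := by
    field_simp
    ring
  rw [e4, e5]
  have e6 : -(((2 * K + 2) ^ 2 - 1) / (8 * (33 / 200))) *
      ((A / (2 * K + 3)) ^ 2 * (u.re ^ 2 + u.im ^ 2) + (D / (2 * K + 1)) ^ 2 * (w.re ^ 2 + w.im ^ 2)
        - 2 * (A / (2 * K + 3) * (D / (2 * K + 1))) * (u.re * w.re - u.im * w.im)) =
      -(A ^ 2 / (132 / 100) * ((2 * K + 1) / (2 * K + 3))) * (u.re ^ 2 + u.im ^ 2)
      - D ^ 2 / (132 / 100) * ((2 * K + 3) / (2 * K + 1)) * (w.re ^ 2 + w.im ^ 2)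
      + 2 * (A * D / (132 / 100)) * (u.re * w.re - u.im * w.im) := by
    rw [← e1, ← e2, ← e3]
    ring
  rw [e6]
  nlinarith [key]

/-- upper bound of `|KK|` from the table -/
theorem kkb (hT : StTrg) (j : ℤ) (hj : j ≠ 0) (C S : ℤ) (hC : cT (40 + 43 * j) = C)
    (hS : cT (6 * j - 60) = S) (V : ℝ)
    (hV : 4 / |(j : ℝ)| * (|(C : ℝ)| / 10 ^ 6 + 1 / 10 ^ 5) * (|(S : ℝ)| / 10 ^ 6 + 1 / 10 ^ 5) ≤ V) :
    |KK (Real.pi / 40) (Real.pi / 10) j| ≤ V := by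
  refine le_trans ?_ hV
  have h1 := hT (40 + 43 * j)
  have h2 := hT (6 * j - 60)
  rw [hC] at h1
  rw [hS] at h2
  have a1 : Real.cos (Real.pi * (1 + j) / 3 + j * (Real.pi / 40)) =
      Real.cos (((40 + 43 * j : ℤ) : ℝ) * Real.pi / 120) := by
    congr 1
    push_cast
    ring
  have a2 : Real.sin (j * (Real.pi / 10) / 2) = Real.cos (((6 * j - 60 : ℤ) : ℝ) * Real.pi / 120) := by
    rw [← Real.cos_sub_pi_div_two]
    congr 1
    push_cast
    ring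
  have b1 : |Real.cos (Real.pi * (1 + j) / 3 + j * (Real.pi / 40))| ≤
      |(C : ℝ)| / 10 ^ 6 + 1 / 10 ^ 5 := by
    rw [a1]
    have h3 : Real.cos (((40 + 43 * j : ℤ) : ℝ) * Real.pi / 120) =
        (Real.cos (((40 + 43 * j : ℤ) : ℝ) * Real.pi / 120) - (C : ℝ) / 10 ^ 6) + (C : ℝ) / 10 ^ 6 := by
      ring
    have h4 : |(C : ℝ) / 10 ^ 6| = |(C : ℝ)| / 10 ^ 6 := by
      rw [abs_div, abs_of_pos (by positivity : (0 : ℝ) < 10 ^ 6)]
    calc |Real.cos (((40 + 43 * j : ℤ) : ℝ) * Real.pi / 120)|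
        = |(Real.cos (((40 + 43 * j : ℤ) : ℝ) * Real.pi / 120) - (C : ℝ) / 10 ^ 6)
            + (C : ℝ) / 10 ^ 6| := by rw [← h3]
      _ ≤ |Real.cos (((40 + 43 * j : ℤ) : ℝ) * Real.pi / 120) - (C : ℝ) / 10 ^ 6|
            + |(C : ℝ) / 10 ^ 6| := abs_add_le _ _
      _ ≤ |(C : ℝ)| / 10 ^ 6 + 1 / 10 ^ 5 := by rw [h4]; linarith
  have b2 : |Real.sin (j * (Real.pi / 10) / 2)| ≤ |(S : ℝ)| / 10 ^ 6 + 1 / 10 ^ 5 := by
    rw [a2]
    have h3 : Real.cos (((6 * j - 60 : ℤ) : ℝ) * Real.pi / 120) =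
        (Real.cos (((6 * j - 60 : ℤ) : ℝ) * Real.pi / 120) - (S : ℝ) / 10 ^ 6) + (S : ℝ) / 10 ^ 6 := by
      ring
    have h4 : |(S : ℝ) / 10 ^ 6| = |(S : ℝ)| / 10 ^ 6 := by
      rw [abs_div, abs_of_pos (by positivity : (0 : ℝ) < 10 ^ 6)]
    calc |Real.cos (((6 * j - 60 : ℤ) : ℝ) * Real.pi / 120)|
        = |(Real.cos (((6 * j - 60 : ℤ) : ℝ) * Real.pi / 120) - (S : ℝ) / 10 ^ 6)
            + (S : ℝ) / 10 ^ 6| := by rw [← h3]
      _ ≤ |Real.cos (((6 * j - 60 : ℤ) : ℝ) * Real.pi / 120) - (S : ℝ) / 10 ^ 6|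
            + |(S : ℝ) / 10 ^ 6| := abs_add_le _ _
      _ ≤ |(S : ℝ)| / 10 ^ 6 + 1 / 10 ^ 5 := by rw [h4]; linarith
  unfold KK RR
  rw [abs_mul, abs_mul, abs_div, abs_of_pos (by norm_num : (0 : ℝ) < 4)]
  have hj0 : 0 ≤ 4 / |(j : ℝ)| := by positivity
  calc |Real.cos (Real.pi * (1 + j) / 3 + j * (Real.pi / 40))| *
        (4 / |(j : ℝ)| * |Real.sin (j * (Real.pi / 10) / 2)|)
      = 4 / |(j : ℝ)| * (|Real.cos (Real.pi * (1 + j) / 3 + j * (Real.pi / 40))| *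
        |Real.sin (j * (Real.pi / 10) / 2)|) := by ring
    _ ≤ 4 / |(j : ℝ)| * ((|(C : ℝ)| / 10 ^ 6 + 1 / 10 ^ 5) * (|(S : ℝ)| / 10 ^ 6 + 1 / 10 ^ 5)) := by
        apply mul_le_mul_of_nonneg_left _ hj0
        exact mul_le_mul b1 b2 (abs_nonneg _) (by positivity)
    _ = 4 / |(j : ℝ)| * (|(C : ℝ)| / 10 ^ 6 + 1 / 10 ^ 5) * (|(S : ℝ)| / 10 ^ 6 + 1 / 10 ^ 5) := by
        ring

/-- crude upper bound of `|KK|` -/
theorem kkc (d ρ : ℝ) (j : ℤ) : |KK d ρ j| ≤ 4 / |(j : ℝ)| := by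
  unfold KK RR
  rw [abs_mul, abs_mul, abs_div, abs_of_pos (by norm_num : (0 : ℝ) < 4)]
  have h1 := Real.abs_cos_le_one (Real.pi * (1 + j) / 3 + j * d)
  have h2 := Real.abs_sin_le_one (j * ρ / 2)
  have h3 : 0 ≤ 4 / |(j : ℝ)| := by positivity
  calc |Real.cos (Real.pi * (1 + j) / 3 + j * d)| * (4 / |(j : ℝ)| * |Real.sin (j * ρ / 2)|)
      ≤ 1 * (4 / |(j : ℝ)| * 1) := by
        apply mul_le_mul h1 _ (by positivity) (by norm_num)
        exact mul_le_mul_of_nonneg_left h2 h3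
    _ = 4 / |(j : ℝ)| := by ring

/-- the sum of four terms -/
theorem bcb (d ρ : ℝ) (θ : ℤ → ℝ) (n : ℤ) (hn : n ≠ 1) (t1 t2 t3 t4 K1 K2 K3 K4 : ℝ)
    (h1 : θ (n - 9) = t1) (h2 : θ (n - 3) = t2) (h3 : θ (n + 3) = t3) (h4 : θ (n + 9) = t4)
    (p1 : 0 ≤ t1) (p2 : 0 ≤ t2) (p3 : 0 ≤ t3) (p4 : 0 ≤ t4)
    (k1 : |KK d ρ (n + (n - 9))| ≤ K1) (k2 : |KK d ρ (n + (n - 3))| ≤ K2)
    (k3 : |KK d ρ (n + (n + 3))| ≤ K3) (k4 : |KK d ρ (n + (n + 9))| ≤ K4) :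
    bC θ d ρ n ≤ 95 / 1000 * (t1 * K1) + 1045 / 1000 * (t2 * K2) + 1045 / 1000 * (t3 * K3)
      + 95 / 1000 * (t4 * K4) := by
  unfold bC wt aK
  have c1 : (n - 9 - n) ^ 2 ≠ 9 := by
    have : n - 9 - n = -9 := by ring
    rw [this]; norm_num
  have c2 : (n - 3 - n) ^ 2 = 9 := by
    have : n - 3 - n = -3 := by ring
    rw [this]; norm_num
  have c3 : (n + 3 - n) ^ 2 = 9 := by
    have : n + 3 - n = 3 := by ring
    rw [this]; norm_num
  have c4 : (n + 9 - n) ^ 2 ≠ 9 := by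
    have : n + 9 - n = 9 := by ring
    rw [this]; norm_num
  simp only [hn, false_and, if_false, c1, c2, c3, c4, if_true, eq_self_iff_true, h1, h2, h3, h4]
  have m1 := mul_le_mul_of_nonneg_left k1 p1
  have m2 := mul_le_mul_of_nonneg_left k2 p2
  have m3 := mul_le_mul_of_nonneg_left k3 p3
  have m4 := mul_le_mul_of_nonneg_left k4 p4
  nlinarith [m1, m2, m3, m4]

/-- bounds of `γ` from the table -/
theorem gamb (hT : StTrg) (n : ℤ) (C S : ℤ) (hC : cT (80 * (n + 1) + 6 * n) = C) (hS : cT (12 * n) = S)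
    (hS1 : |S| ≤ 1000000) :
    |Helper56.RC.gam (Real.pi / 40) (Real.pi / 10) n - (1 / 2 + 1 / 2 * ((C : ℝ) / 10 ^ 6 * ((S : ℝ) / 10 ^ 6)))|
      ≤ 1 / 10 ^ 5 := by
  have h1 := hT (80 * (n + 1) + 6 * n)
  have h2 := hT (12 * n)
  rw [hC] at h1
  rw [hS] at h2
  have a1 : Real.cos (2 * Real.pi * (n + 1) / 3 + 2 * n * (Real.pi / 40)) =
      Real.cos (((80 * (n + 1) + 6 * n : ℤ) : ℝ) * Real.pi / 120) := by
    congr 1
    push_cast
    ring
  have a2 : Real.cos (n * (Real.pi / 10)) = Real.cos (((12 * n : ℤ) : ℝ) * Real.pi / 120) := by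
    congr 1
    push_cast
    ring
  unfold Helper56.RC.gam
  rw [a1, a2]
  set c := Real.cos (((80 * (n + 1) + 6 * n : ℤ) : ℝ) * Real.pi / 120) with hc
  set s := Real.cos (((12 * n : ℤ) : ℝ) * Real.pi / 120) with hs
  have hc1 : |c| ≤ 1 := Real.abs_cos_le_one _
  have hS2 : |(S : ℝ) / 10 ^ 6| ≤ 1 := by
    rw [abs_div, abs_of_pos (by positivity : (0 : ℝ) < 10 ^ 6), div_le_one (by positivity)]
    have : ((|S| : ℤ) : ℝ) ≤ ((1000000 : ℤ) : ℝ) := by exact_mod_cast hS1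
    push_cast at this
    norm_num
    linarith
  have e : 1 / 2 + 1 / 2 * c * s - (1 / 2 + 1 / 2 * ((C : ℝ) / 10 ^ 6 * ((S : ℝ) / 10 ^ 6))) =
      1 / 2 * (c * (s - (S : ℝ) / 10 ^ 6) + (c - (C : ℝ) / 10 ^ 6) * ((S : ℝ) / 10 ^ 6)) := by
    ring
  rw [e, abs_mul, abs_of_pos (by norm_num : (0 : ℝ) < 1 / 2)]
  have m1 : |c * (s - (S : ℝ) / 10 ^ 6)| ≤ 1 / 10 ^ 5 := by
    rw [abs_mul]
    calc |c| * |s - (S : ℝ) / 10 ^ 6| ≤ 1 * (1 / 10 ^ 5) :=
          mul_le_mul hc1 h2 (abs_nonneg _) (by norm_num)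
      _ = 1 / 10 ^ 5 := by ring
  have m2 : |(c - (C : ℝ) / 10 ^ 6) * ((S : ℝ) / 10 ^ 6)| ≤ 1 / 10 ^ 5 := by
    rw [abs_mul]
    calc |c - (C : ℝ) / 10 ^ 6| * |(S : ℝ) / 10 ^ 6| ≤ (1 / 10 ^ 5) * 1 :=
          mul_le_mul h1 hS2 (abs_nonneg _) (by norm_num)
      _ = 1 / 10 ^ 5 := by ring
  have m3 := abs_add_le (c * (s - (S : ℝ) / 10 ^ 6)) ((c - (C : ℝ) / 10 ^ 6) * ((S : ℝ) / 10 ^ 6))
  linarith

theorem gam01 (d ρ : ℝ) (n : ℤ) : 0 ≤ Helper56.RC.gam d ρ n ∧ Helper56.RC.gam d ρ n ≤ 1 := by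
  unfold Helper56.RC.gam
  have h1 := Real.abs_cos_le_one (2 * Real.pi * (n + 1) / 3 + 2 * n * d)
  have h2 := Real.abs_cos_le_one (n * ρ)
  set a := Real.cos (2 * Real.pi * (n + 1) / 3 + 2 * n * d)
  set b := Real.cos (n * ρ)
  have h3 : |a * b| ≤ 1 := by
    rw [abs_mul]
    exact mul_le_one₀ h1 (abs_nonneg _) h2
  have h4 := abs_le.1 h3
  constructor
  · nlinarith [h4.1]
  · nlinarith [h4.2]

/-- bounds of `√3` -/
theorem s3b : (866 / 10000 : ℝ) ≤ 1 / 20 * Real.sqrt 3 ∧ 1 / 20 * Real.sqrt 3 ≤ 8661 / 100000 := by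
  constructor
  · have : (1732 / 1000 : ℝ) ≤ Real.sqrt 3 := by
      apply Real.le_sqrt_of_sq_le
      norm_num
    linarith
  · have : Real.sqrt 3 ≤ (17321 / 10000 : ℝ) := by
      rw [Real.sqrt_le_left (by norm_num)]
      norm_num
    linarith

theorem kk_m23 (hT : StTrg) : |KK (Real.pi / 40) (Real.pi / 10) (-23)| ≤ 758 / 10000 :=
  kkb hT (-23) (by norm_num) (958820) (453990) (by decide) (by decide) _ (by norm_num [abs_of_pos, abs_of_neg])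

theorem kk_m19 (hT : StTrg) : |KK (Real.pi / 40) (Real.pi / 10) (-19)| ≤ 26 / 10000 :=
  kkb hT (-19) (by norm_num) (78459) (-156434) (by decide) (by decide) _ (by norm_num [abs_of_pos, abs_of_neg])

theorem kk_m17 (hT : StTrg) : |KK (Real.pi / 40) (Real.pi / 10) (-17)| ≤ 775 / 10000 :=
  kkb hT (-17) (by norm_num) (725374) (-453990) (by decide) (by decide) _ (by norm_num [abs_of_pos, abs_of_neg])

theorem kk_m15 (hT : StTrg) : |KK (Real.pi / 40) (Real.pi / 10) (-15)| ≤ 1870 / 10000 :=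
  kkb hT (-15) (by norm_num) (-991445) (-707107) (by decide) (by decide) _ (by norm_num [abs_of_pos, abs_of_neg])

theorem kk_m13 (hT : StTrg) : |KK (Real.pi / 40) (Real.pi / 10) (-13)| ≤ 1433 / 10000 :=
  kkb hT (-13) (by norm_num) (522499) (-891007) (by decide) (by decide) _ (by norm_num [abs_of_pos, abs_of_neg])

theorem kk_m11 (hT : StTrg) : |KK (Real.pi / 40) (Real.pi / 10) (-11)| ≤ 1199 / 10000 :=
  kkb hT (-11) (by norm_num) (333807) (-987688) (by decide) (by decide) _ (by norm_num [abs_of_pos, abs_of_neg])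

theorem kk_m9 (hT : StTrg) : |KK (Real.pi / 40) (Real.pi / 10) (-9)| ≤ 4139 / 10000 :=
  kkb hT (-9) (by norm_num) (-942641) (-987688) (by decide) (by decide) _ (by norm_num [abs_of_pos, abs_of_neg])

theorem kk_m7 (hT : StTrg) : |KK (Real.pi / 40) (Real.pi / 10) (-7)| ≤ 4342 / 10000 :=
  kkb hT (-7) (by norm_num) (852640) (-891007) (by decide) (by decide) _ (by norm_num [abs_of_pos, abs_of_neg])

theorem kk_m5 (hT : StTrg) : |KK (Real.pi / 40) (Real.pi / 10) (-5)| ≤ 739 / 10000 :=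
  kkb hT (-5) (by norm_num) (-130526) (-707107) (by decide) (by decide) _ (by norm_num [abs_of_pos, abs_of_neg])

theorem kk_m3 (hT : StTrg) : |KK (Real.pi / 40) (Real.pi / 10) (-3)| ≤ 4167 / 10000 :=
  kkb hT (-3) (by norm_num) (-688355) (-453990) (by decide) (by decide) _ (by norm_num [abs_of_pos, abs_of_neg])

theorem kk_m1 (hT : StTrg) : |KK (Real.pi / 40) (Real.pi / 10) (-1)| ≤ 6239 / 10000 :=
  kkb hT (-1) (by norm_num) (996917) (-156434) (by decide) (by decide) _ (by norm_num [abs_of_pos, abs_of_neg])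

theorem kk_p1 (hT : StTrg) : |KK (Real.pi / 40) (Real.pi / 10) (1)| ≤ 3545 / 10000 :=
  kkb hT (1) (by norm_num) (-566406) (156434) (by decide) (by decide) _ (by norm_num [abs_of_pos, abs_of_neg])

theorem kk_p3 (hT : StTrg) : |KK (Real.pi / 40) (Real.pi / 10) (3)| ≤ 1720 / 10000 :=
  kkb hT (3) (by norm_num) (-284015) (453990) (by decide) (by decide) _ (by norm_num [abs_of_pos, abs_of_neg])

theorem kk_p5 (hT : StTrg) : |KK (Real.pi / 40) (Real.pi / 10) (5)| ≤ 5227 / 10000 :=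
  kkb hT (5) (by norm_num) (923880) (707107) (by decide) (by decide) _ (by norm_num [abs_of_pos, abs_of_neg])

theorem kk_p7 (hT : StTrg) : |KK (Real.pi / 40) (Real.pi / 10) (7)| ≤ 4475 / 10000 :=
  kkb hT (7) (by norm_num) (-878817) (891007) (by decide) (by decide) _ (by norm_num [abs_of_pos, abs_of_neg])

theorem kk_p9 (hT : StTrg) : |KK (Real.pi / 40) (Real.pi / 10) (9)| ≤ 801 / 10000 :=
  kkb hT (9) (by norm_num) (182236) (987688) (by decide) (by decide) _ (by norm_num [abs_of_pos, abs_of_neg])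

theorem kk_p11 (hT : StTrg) : |KK (Real.pi / 40) (Real.pi / 10) (11)| ≤ 2333 / 10000 :=
  kkb hT (11) (by norm_num) (649448) (987688) (by decide) (by decide) _ (by norm_num [abs_of_pos, abs_of_neg])

theorem kk_p13 (hT : StTrg) : |KK (Real.pi / 40) (Real.pi / 10) (13)| ≤ 2741 / 10000 :=
  kkb hT (13) (by norm_num) (-999657) (891007) (by decide) (by decide) _ (by norm_num [abs_of_pos, abs_of_neg])

theorem kk_p15 (hT : StTrg) : |KK (Real.pi / 40) (Real.pi / 10) (15)| ≤ 1148 / 10000 :=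
  kkb hT (15) (by norm_num) (608761) (707107) (by decide) (by decide) _ (by norm_num [abs_of_pos, abs_of_neg])

theorem kk_p17 (hT : StTrg) : |KK (Real.pi / 40) (Real.pi / 10) (17)| ≤ 250 / 10000 :=
  kkb hT (17) (by norm_num) (233445) (453990) (by decide) (by decide) _ (by norm_num [abs_of_pos, abs_of_neg])

theorem kk_p19 (hT : StTrg) : |KK (Real.pi / 40) (Real.pi / 10) (19)| ≤ 298 / 10000 :=
  kkb hT (19) (by norm_num) (-902585) (156434) (by decide) (by decide) _ (by norm_num [abs_of_pos, abs_of_neg])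

theorem kk_p21 (hT : StTrg) : |KK (Real.pi / 40) (Real.pi / 10) (21)| ≤ 269 / 10000 :=
  kkb hT (21) (by norm_num) (902585) (-156434) (by decide) (by decide) _ (by norm_num [abs_of_pos, abs_of_neg])

theorem kk_p23 (hT : StTrg) : |KK (Real.pi / 40) (Real.pi / 10) (23)| ≤ 185 / 10000 :=
  kkb hT (23) (by norm_num) (-233445) (-453990) (by decide) (by decide) _ (by norm_num [abs_of_pos, abs_of_neg])

theorem kk_p27 (hT : StTrg) : |KK (Real.pi / 40) (Real.pi / 10) (27)| ≤ 1320 / 10000 :=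
  kkb hT (27) (by norm_num) (999657) (-891007) (by decide) (by decide) _ (by norm_num [abs_of_pos, abs_of_neg])

theorem bc_p3 (hT : StTrg) : bC thB (Real.pi / 40) (Real.pi / 10) (3) ≤ 8907 / 10000 := by
  refine le_trans (bcb _ _ thB (3) (by norm_num) (3 / 4) (11 / 4) (17 / 4) (1) (4167 / 10000) (1720 / 10000) (801 / 10000) (1148 / 10000)
    (by norm_num [thB]) (by norm_num [thB]) (by norm_num [thB]) (by norm_num [thB])
    (by norm_num) (by norm_num) (by norm_num) (by norm_num) ?_ ?_ ?_ ?_) (by norm_num)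
  · exact kk_m3 hT
  · exact kk_p3 hT
  · exact kk_p9 hT
  · exact kk_p15 hT

theorem bc_m1 (hT : StTrg) : bC thB (Real.pi / 40) (Real.pi / 10) (-1) ≤ 7979 / 10000 := by
  refine le_trans (bcb _ _ thB (-1) (by norm_num) (1) (7 / 4) (3 / 2) (9 / 4) (1199 / 10000) (739 / 10000) (3545 / 10000) (4475 / 10000)
    (by norm_num [thB]) (by norm_num [thB]) (by norm_num [thB]) (by norm_num [thB])
    (by norm_num) (by norm_num) (by norm_num) (by norm_num) ?_ ?_ ?_ ?_) (by norm_num)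
  · exact kk_m11 hT
  · exact kk_m5 hT
  · exact kk_p1 hT
  · exact kk_p7 hT

theorem bc_p5 (hT : StTrg) : bC thB (Real.pi / 40) (Real.pi / 10) (5) ≤ 14078 / 10000 := by
  refine le_trans (bcb _ _ thB (5) (by norm_num) (7 / 4) (3 / 2) (9 / 4) (1) (3545 / 10000) (4475 / 10000) (2741 / 10000) (298 / 10000)
    (by norm_num [thB]) (by norm_num [thB]) (by norm_num [thB]) (by norm_num [thB])
    (by norm_num) (by norm_num) (by norm_num) (by norm_num) ?_ ?_ ?_ ?_) (by norm_num)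
  · exact kk_p1 hT
  · exact kk_p7 hT
  · exact kk_p13 hT
  · exact kk_p19 hT

theorem bc_m3 (hT : StTrg) : bC thB (Real.pi / 40) (Real.pi / 10) (-3) ≤ 16091 / 10000 := by
  refine le_trans (bcb _ _ thB (-3) (by norm_num) (1) (3 / 4) (11 / 4) (17 / 4) (1870 / 10000) (4139 / 10000) (4167 / 10000) (1720 / 10000)
    (by norm_num [thB]) (by norm_num [thB]) (by norm_num [thB]) (by norm_num [thB])
    (by norm_num) (by norm_num) (by norm_num) (by norm_num) ?_ ?_ ?_ ?_) (by norm_num)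
  · exact kk_m15 hT
  · exact kk_m9 hT
  · exact kk_m3 hT
  · exact kk_p3 hT

theorem bc_p7 (hT : StTrg) : bC thB (Real.pi / 40) (Real.pi / 10) (7) ≤ 10940 / 10000 := by
  refine le_trans (bcb _ _ thB (7) (by norm_num) (21 / 4) (13 / 4) (3 / 2) (1) (5227 / 10000) (2333 / 10000) (250 / 10000) (185 / 10000)
    (by norm_num [thB]) (by norm_num [thB]) (by norm_num [thB]) (by norm_num [thB])
    (by norm_num) (by norm_num) (by norm_num) (by norm_num) ?_ ?_ ?_ ?_) (by norm_num)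
  · exact kk_p5 hT
  · exact kk_p11 hT
  · exact kk_p17 hT
  · exact kk_p23 hT

theorem bc_m5 (hT : StTrg) : bC thB (Real.pi / 40) (Real.pi / 10) (-5) ≤ 27622 / 10000 := by
  refine le_trans (bcb _ _ thB (-5) (by norm_num) (1) (5 / 4) (21 / 4) (13 / 4) (26 / 10000) (1433 / 10000) (4342 / 10000) (6239 / 10000)
    (by norm_num [thB]) (by norm_num [thB]) (by norm_num [thB]) (by norm_num [thB])
    (by norm_num) (by norm_num) (by norm_num) (by norm_num) ?_ ?_ ?_ ?_) (by norm_num)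
  · exact kk_m19 hT
  · exact kk_m13 hT
  · exact kk_m7 hT
  · exact kk_m1 hT

theorem bc_p9 (hT : StTrg) : bC thB (Real.pi / 40) (Real.pi / 10) (9) ≤ 5715 / 10000 := by
  refine le_trans (bcb _ _ thB (9) (by norm_num) (11 / 4) (17 / 4) (1) (1) (801 / 10000) (1148 / 10000) (269 / 10000) (1320 / 10000)
    (by norm_num [thB]) (by norm_num [thB]) (by norm_num [thB]) (by norm_num [thB])
    (by norm_num) (by norm_num) (by norm_num) (by norm_num) ?_ ?_ ?_ ?_) (by norm_num)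
  · exact kk_p9 hT
  · exact kk_p15 hT
  · exact kk_p21 hT
  · exact kk_p27 hT

theorem bc_m7 (hT : StTrg) : bC thB (Real.pi / 40) (Real.pi / 10) (-7) ≤ 3180 / 10000 := by
  refine le_trans (bcb _ _ thB (-7) (by norm_num) (1) (1) (7 / 4) (3 / 2) (758 / 10000) (775 / 10000) (1199 / 10000) (739 / 10000)
    (by norm_num [thB]) (by norm_num [thB]) (by norm_num [thB]) (by norm_num [thB])
    (by norm_num) (by norm_num) (by norm_num) (by norm_num) ?_ ?_ ?_ ?_) (by norm_num)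
  · exact kk_m23 hT
  · exact kk_m17 hT
  · exact kk_m11 hT
  · exact kk_m5 hT

theorem gm_p3 (hT : StTrg) : 2535 / 10000 ≤ Helper56.RC.gam (Real.pi / 40) (Real.pi / 10) (3) := by
  have h := abs_le.1 (gamb hT (3) (-838671) (587785) (by decide) (by decide) (by decide))
  have h1 := h.1
  norm_num at h1
  linarith

theorem gm_p5 (hT : StTrg) : 4999 / 10000 ≤ Helper56.RC.gam (Real.pi / 40) (Real.pi / 10) (5) := by
  have h := abs_le.1 (gamb hT (5) (707107) (0) (by decide) (by decide) (by decide))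
  have h1 := h.1
  norm_num at h1
  linarith

theorem gm_p7 (hT : StTrg) : 3399 / 10000 ≤ Helper56.RC.gam (Real.pi / 40) (Real.pi / 10) (7) := by
  have h := abs_le.1 (gamb hT (7) (544639) (-587785) (by decide) (by decide) (by decide))
  have h1 := h.1
  norm_num at h1
  linarith

theorem gm_p9 (hT : StTrg) : 9439 / 10000 ≤ Helper56.RC.gam (Real.pi / 40) (Real.pi / 10) (9) := by
  have h := abs_le.1 (gamb hT (9) (-933580) (-951057) (by decide) (by decide) (by decide))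
  have h1 := h.1
  norm_num at h1
  linarith

theorem gm_m1 (hT : StTrg) : Helper56.RC.gam (Real.pi / 40) (Real.pi / 10) (-1) ≤ 9697 / 10000 := by
  have h := abs_le.1 (gamb hT (-1) (987688) (951057) (by decide) (by decide) (by decide))
  have h2 := h.2
  norm_num at h2
  linarith

theorem gm_m3 (hT : StTrg) : Helper56.RC.gam (Real.pi / 40) (Real.pi / 10) (-3) ≤ 4847 / 10000 := by
  have h := abs_le.1 (gamb hT (-3) (-52336) (587785) (by decide) (by decide) (by decide))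
  have h2 := h.2
  norm_num at h2
  linarith

theorem gm_m5 (hT : StTrg) : Helper56.RC.gam (Real.pi / 40) (Real.pi / 10) (-5) ≤ 5001 / 10000 := by
  have h := abs_le.1 (gamb hT (-5) (-965926) (0) (by decide) (by decide) (by decide))
  have h2 := h.2
  norm_num at h2
  linarith

theorem gm_m7 (hT : StTrg) : Helper56.RC.gam (Real.pi / 40) (Real.pi / 10) (-7) ≤ 3666 / 10000 := by
  have h := abs_le.1 (gamb hT (-7) (453990) (-587785) (by decide) (by decide) (by decide))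
  have h2 := h.2
  norm_num at h2
  linarith

theorem case0 (hT : StTrg) (u w : ℂ) :
    (bC thB (Real.pi / 40) (Real.pi / 10) (2 * ((0 : ℕ) : ℤ) + 3) + 17 / 100 + if (0 : ℕ) = 0 then 3 else 0) * ‖u‖ ^ 2
    + (bC thB (Real.pi / 40) (Real.pi / 10) (-(2 * ((0 : ℕ) : ℤ) + 1)) + 17 / 100 + if (0 : ℕ) = 0 then 3 else 0) * ‖w‖ ^ 2
  ≤ QB (1 / 20) (33 / 200) (Real.pi / 40) (Real.pi / 10) 0 u w + 891 / 100 * (‖u‖ ^ 2 + ‖w‖ ^ 2)
    - FSc (1 / 20) (33 / 200) / 4 * ‖u + (starRingEnd ℂ) w‖ ^ 2 := by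
  obtain ⟨h1, h2⟩ := s3b
  have hg : gg (1 / 20) 0 = 2 + 1 / 20 * Real.sqrt 3 := by
    unfold gg
    norm_num
  have hF : FSc (1 / 20) (33 / 200) = 2 + 1 / 20 * Real.sqrt 3 - 33 / 100 := by
    unfold FSc
    ring
  set s := 1 / 20 * Real.sqrt 3 with hs
  refine blk0 _ _ thB (8907 / 10000) (7979 / 10000) (2535 / 10000) (9697 / 10000) (5231 / 1000) (1262 / 1000) (943 / 1000) (bc_p3 hT) (bc_m1 hT) (gm_p3 hT) (gm_m1 hT)
    (by norm_num) (by norm_num) (by norm_num) ?_ ?_ ?_ u w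
  · rw [hg, hF]
    nlinarith [h1, h2]
  · rw [hg, hF]
    nlinarith [h1, h2]
  · rw [hg, hF, abs_le]
    constructor
    · nlinarith [h1, h2]
    · nlinarith [h1, h2]

theorem case1 (hT : StTrg) (u w : ℂ) :
    (bC thB (Real.pi / 40) (Real.pi / 10) (2 * ((1 : ℕ) : ℤ) + 3) + 17 / 100 + if (1 : ℕ) = 0 then 3 else 0) * ‖u‖ ^ 2
    + (bC thB (Real.pi / 40) (Real.pi / 10) (-(2 * ((1 : ℕ) : ℤ) + 1)) + 17 / 100 + if (1 : ℕ) = 0 then 3 else 0) * ‖w‖ ^ 2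
  ≤ QB (1 / 20) (33 / 200) (Real.pi / 40) (Real.pi / 10) 1 u w + 891 / 100 * (‖u‖ ^ 2 + ‖w‖ ^ 2)
    - FSc (1 / 20) (33 / 200) / 4 * ‖u + (starRingEnd ℂ) w‖ ^ 2 := by
  obtain ⟨h1, h2⟩ := s3b
  have hF : FSc (1 / 20) (33 / 200) = 2 + 1 / 20 * Real.sqrt 3 - 33 / 100 := by
    unfold FSc
    ring
  set s := 1 / 20 * Real.sqrt 3 with hs
  refine blk1 _ _ thB 1 (by norm_num) (5) (-3) 1 (by norm_num) (by norm_num) (by norm_num)
    (2 - s + 33 / 100) (2 - s + (-33 / 200)) (by unfold gg chu; norm_num [hs]) (by unfold gg chw; norm_num [hs])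
    (14078 / 10000) (16091 / 10000) (4999 / 10000) (4847 / 10000) (5185 / 1000) (1884 / 1000) (2533 / 1000) (bc_p5 hT) (bc_m3 hT) (gm_p5 hT) (gm_m3 hT)
    (by norm_num) (by norm_num) (by norm_num) ?_ ?_ ?_ u w
  · rw [hF]
    nlinarith [h1, h2]
  · rw [hF]
    nlinarith [h1, h2]
  · rw [hF, abs_le]
    constructor
    · nlinarith [h1, h2]
    · nlinarith [h1, h2]

theorem case2 (hT : StTrg) (u w : ℂ) :
    (bC thB (Real.pi / 40) (Real.pi / 10) (2 * ((2 : ℕ) : ℤ) + 3) + 17 / 100 + if (2 : ℕ) = 0 then 3 else 0) * ‖u‖ ^ 2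
    + (bC thB (Real.pi / 40) (Real.pi / 10) (-(2 * ((2 : ℕ) : ℤ) + 1)) + 17 / 100 + if (2 : ℕ) = 0 then 3 else 0) * ‖w‖ ^ 2
  ≤ QB (1 / 20) (33 / 200) (Real.pi / 40) (Real.pi / 10) 2 u w + 891 / 100 * (‖u‖ ^ 2 + ‖w‖ ^ 2)
    - FSc (1 / 20) (33 / 200) / 4 * ‖u + (starRingEnd ℂ) w‖ ^ 2 := by
  obtain ⟨h1, h2⟩ := s3b
  have hF : FSc (1 / 20) (33 / 200) = 2 + 1 / 20 * Real.sqrt 3 - 33 / 100 := by
    unfold FSc
    ring
  set s := 1 / 20 * Real.sqrt 3 with hs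
  refine blk1 _ _ thB 2 (by norm_num) (7) (-5) 2 (by norm_num) (by norm_num) (by norm_num)
    (2 + s + (-33 / 200)) (2 + s + (-33 / 200)) (by unfold gg chu; norm_num [hs]) (by unfold gg chw; norm_num [hs])
    (10940 / 10000) (27622 / 10000) (3399 / 10000) (5001 / 10000) (5536 / 1000) (1042 / 1000) (2359 / 1000) (bc_p7 hT) (bc_m5 hT) (gm_p7 hT) (gm_m5 hT)
    (by norm_num) (by norm_num) (by norm_num) ?_ ?_ ?_ u w
  · rw [hF]
    nlinarith [h1, h2]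
  · rw [hF]
    nlinarith [h1, h2]
  · rw [hF, abs_le]
    constructor
    · nlinarith [h1, h2]
    · nlinarith [h1, h2]

theorem case3 (hT : StTrg) (u w : ℂ) :
    (bC thB (Real.pi / 40) (Real.pi / 10) (2 * ((3 : ℕ) : ℤ) + 3) + 17 / 100 + if (3 : ℕ) = 0 then 3 else 0) * ‖u‖ ^ 2
    + (bC thB (Real.pi / 40) (Real.pi / 10) (-(2 * ((3 : ℕ) : ℤ) + 1)) + 17 / 100 + if (3 : ℕ) = 0 then 3 else 0) * ‖w‖ ^ 2
  ≤ QB (1 / 20) (33 / 200) (Real.pi / 40) (Real.pi / 10) 3 u w + 891 / 100 * (‖u‖ ^ 2 + ‖w‖ ^ 2)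
    - FSc (1 / 20) (33 / 200) / 4 * ‖u + (starRingEnd ℂ) w‖ ^ 2 := by
  obtain ⟨h1, h2⟩ := s3b
  have hF : FSc (1 / 20) (33 / 200) = 2 + 1 / 20 * Real.sqrt 3 - 33 / 100 := by
    unfold FSc
    ring
  set s := 1 / 20 * Real.sqrt 3 with hs
  refine blk1 _ _ thB 3 (by norm_num) (9) (-7) 3 (by norm_num) (by norm_num) (by norm_num)
    (2 - s + (-33 / 200)) (2 - s + 33 / 100) (by unfold gg chu; norm_num [hs]) (by unfold gg chw; norm_num [hs])
    (5715 / 10000) (3180 / 10000) (9439 / 10000) (3666 / 10000) (6437 / 1000) (2738 / 1000) (2533 / 1000) (bc_p9 hT) (bc_m7 hT) (gm_p9 hT) (gm_m7 hT)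
    (by norm_num) (by norm_num) (by norm_num) ?_ ?_ ?_ u w
  · rw [hF]
    nlinarith [h1, h2]
  · rw [hF]
    nlinarith [h1, h2]
  · rw [hF, abs_le]
    constructor
    · nlinarith [h1, h2]
    · nlinarith [h1, h2]

theorem bc_p11 : bC thB (Real.pi / 40) (Real.pi / 10) (11) ≤ 7184 / 10000 := by
  refine le_trans (bcb _ _ thB (11) (by norm_num) (3 / 2) (9 / 4) (1) (1) _ _ _ _
    (by norm_num [thB]) (by norm_num [thB]) (by norm_num [thB]) (by norm_num [thB])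
    (by norm_num) (by norm_num) (by norm_num) (by norm_num)
    (kkc _ _ _) (kkc _ _ _) (kkc _ _ _) (kkc _ _ _)) (by norm_num [abs_of_pos, abs_of_neg])

theorem bc_m9 : bC thB (Real.pi / 40) (Real.pi / 10) (-9) ≤ 5383 / 10000 := by
  refine le_trans (bcb _ _ thB (-9) (by norm_num) (1) (1) (3 / 4) (11 / 4) _ _ _ _
    (by norm_num [thB]) (by norm_num [thB]) (by norm_num [thB]) (by norm_num [thB])
    (by norm_num) (by norm_num) (by norm_num) (by norm_num)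
    (kkc _ _ _) (kkc _ _ _) (kkc _ _ _) (kkc _ _ _)) (by norm_num [abs_of_pos, abs_of_neg])

theorem case4 (u w : ℂ) :
    (bC thB (Real.pi / 40) (Real.pi / 10) (2 * ((4 : ℕ) : ℤ) + 3) + 17 / 100 + if (4 : ℕ) = 0 then 3 else 0) * ‖u‖ ^ 2
    + (bC thB (Real.pi / 40) (Real.pi / 10) (-(2 * ((4 : ℕ) : ℤ) + 1)) + 17 / 100 + if (4 : ℕ) = 0 then 3 else 0) * ‖w‖ ^ 2
  ≤ QB (1 / 20) (33 / 200) (Real.pi / 40) (Real.pi / 10) 4 u w + 891 / 100 * (‖u‖ ^ 2 + ‖w‖ ^ 2)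
    - FSc (1 / 20) (33 / 200) / 4 * ‖u + (starRingEnd ℂ) w‖ ^ 2 := by
  obtain ⟨h1, h2⟩ := s3b
  have hF : FSc (1 / 20) (33 / 200) = 2 + 1 / 20 * Real.sqrt 3 - 33 / 100 := by
    unfold FSc
    ring
  set s := 1 / 20 * Real.sqrt 3 with hs
  refine blk1 _ _ thB 4 (by norm_num) (11) (-9) 4 (by norm_num) (by norm_num) (by norm_num)
    (2 + s + 33 / 100) (2 + s + (-33 / 200)) (by unfold gg chu; norm_num [hs]) (by unfold gg chw; norm_num [hs])
    (7184 / 10000) (5383 / 10000) 0 1 (4053 / 1000) (3810 / 1000) (3079 / 1000) bc_p11 bc_m9 (gam01 _ _ _).1 (gam01 _ _ _).2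
    (by norm_num) (by norm_num) (by norm_num) ?_ ?_ ?_ u w
  · rw [hF]
    nlinarith [h1, h2]
  · rw [hF]
    nlinarith [h1, h2]
  · rw [hF, abs_le]
    constructor
    · nlinarith [h1, h2]
    · nlinarith [h1, h2]

theorem bc_p13 : bC thB (Real.pi / 40) (Real.pi / 10) (13) ≤ 5003 / 10000 := by
  refine le_trans (bcb _ _ thB (13) (by norm_num) (13 / 4) (3 / 2) (1) (1) _ _ _ _
    (by norm_num [thB]) (by norm_num [thB]) (by norm_num [thB]) (by norm_num [thB])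
    (by norm_num) (by norm_num) (by norm_num) (by norm_num)
    (kkc _ _ _) (kkc _ _ _) (kkc _ _ _) (kkc _ _ _)) (by norm_num [abs_of_pos, abs_of_neg])

theorem bc_m11 : bC thB (Real.pi / 40) (Real.pi / 10) (-11) ≤ 6080 / 10000 := by
  refine le_trans (bcb _ _ thB (-11) (by norm_num) (1) (1) (5 / 4) (21 / 4) _ _ _ _
    (by norm_num [thB]) (by norm_num [thB]) (by norm_num [thB]) (by norm_num [thB])
    (by norm_num) (by norm_num) (by norm_num) (by norm_num)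
    (kkc _ _ _) (kkc _ _ _) (kkc _ _ _) (kkc _ _ _)) (by norm_num [abs_of_pos, abs_of_neg])

theorem case5 (u w : ℂ) :
    (bC thB (Real.pi / 40) (Real.pi / 10) (2 * ((5 : ℕ) : ℤ) + 3) + 17 / 100 + if (5 : ℕ) = 0 then 3 else 0) * ‖u‖ ^ 2
    + (bC thB (Real.pi / 40) (Real.pi / 10) (-(2 * ((5 : ℕ) : ℤ) + 1)) + 17 / 100 + if (5 : ℕ) = 0 then 3 else 0) * ‖w‖ ^ 2
  ≤ QB (1 / 20) (33 / 200) (Real.pi / 40) (Real.pi / 10) 5 u w + 891 / 100 * (‖u‖ ^ 2 + ‖w‖ ^ 2)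
    - FSc (1 / 20) (33 / 200) / 4 * ‖u + (starRingEnd ℂ) w‖ ^ 2 := by
  obtain ⟨h1, h2⟩ := s3b
  have hF : FSc (1 / 20) (33 / 200) = 2 + 1 / 20 * Real.sqrt 3 - 33 / 100 := by
    unfold FSc
    ring
  set s := 1 / 20 * Real.sqrt 3 with hs
  refine blk1 _ _ thB 5 (by norm_num) (13) (-11) 5 (by norm_num) (by norm_num) (by norm_num)
    (2 - s + (-33 / 200)) (2 - s + (-33 / 200)) (by unfold gg chu; norm_num [hs]) (by unfold gg chw; norm_num [hs])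
    (5003 / 10000) (6080 / 10000) 0 1 (5917 / 1000) (4519 / 1000) (1877 / 1000) bc_p13 bc_m11 (gam01 _ _ _).1 (gam01 _ _ _).2
    (by norm_num) (by norm_num) (by norm_num) ?_ ?_ ?_ u w
  · rw [hF]
    nlinarith [h1, h2]
  · rw [hF]
    nlinarith [h1, h2]
  · rw [hF, abs_le]
    constructor
    · nlinarith [h1, h2]
    · nlinarith [h1, h2]

theorem bc_p15 : bC thB (Real.pi / 40) (Real.pi / 10) (15) ≤ 3682 / 10000 := by
  refine le_trans (bcb _ _ thB (15) (by norm_num) (17 / 4) (1) (1) (1) _ _ _ _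
    (by norm_num [thB]) (by norm_num [thB]) (by norm_num [thB]) (by norm_num [thB])
    (by norm_num) (by norm_num) (by norm_num) (by norm_num)
    (kkc _ _ _) (kkc _ _ _) (kkc _ _ _) (kkc _ _ _)) (by norm_num [abs_of_pos, abs_of_neg])

theorem bc_m13 : bC thB (Real.pi / 40) (Real.pi / 10) (-13) ≤ 3759 / 10000 := by
  refine le_trans (bcb _ _ thB (-13) (by norm_num) (1) (1) (1) (7 / 4) _ _ _ _
    (by norm_num [thB]) (by norm_num [thB]) (by norm_num [thB]) (by norm_num [thB])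
    (by norm_num) (by norm_num) (by norm_num) (by norm_num)
    (kkc _ _ _) (kkc _ _ _) (kkc _ _ _) (kkc _ _ _)) (by norm_num [abs_of_pos, abs_of_neg])

theorem case6 (u w : ℂ) :
    (bC thB (Real.pi / 40) (Real.pi / 10) (2 * ((6 : ℕ) : ℤ) + 3) + 17 / 100 + if (6 : ℕ) = 0 then 3 else 0) * ‖u‖ ^ 2
    + (bC thB (Real.pi / 40) (Real.pi / 10) (-(2 * ((6 : ℕ) : ℤ) + 1)) + 17 / 100 + if (6 : ℕ) = 0 then 3 else 0) * ‖w‖ ^ 2
  ≤ QB (1 / 20) (33 / 200) (Real.pi / 40) (Real.pi / 10) 6 u w + 891 / 100 * (‖u‖ ^ 2 + ‖w‖ ^ 2)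
    - FSc (1 / 20) (33 / 200) / 4 * ‖u + (starRingEnd ℂ) w‖ ^ 2 := by
  obtain ⟨h1, h2⟩ := s3b
  have hF : FSc (1 / 20) (33 / 200) = 2 + 1 / 20 * Real.sqrt 3 - 33 / 100 := by
    unfold FSc
    ring
  set s := 1 / 20 * Real.sqrt 3 with hs
  refine blk1 _ _ thB 6 (by norm_num) (15) (-13) 6 (by norm_num) (by norm_num) (by norm_num)
    (2 + s + (-33 / 200)) (2 + s + 33 / 100) (by unfold gg chu; norm_num [hs]) (by unfold gg chw; norm_num [hs])
    (3682 / 10000) (3759 / 10000) 0 1 (5574 / 1000) (2450 / 1000) (3079 / 1000) bc_p15 bc_m13 (gam01 _ _ _).1 (gam01 _ _ _).2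
    (by norm_num) (by norm_num) (by norm_num) ?_ ?_ ?_ u w
  · rw [hF]
    nlinarith [h1, h2]
  · rw [hF]
    nlinarith [h1, h2]
  · rw [hF, abs_le]
    constructor
    · nlinarith [h1, h2]
    · nlinarith [h1, h2]

theorem bc_p17 : bC thB (Real.pi / 40) (Real.pi / 10) (17) ≤ 2909 / 10000 := by
  refine le_trans (bcb _ _ thB (17) (by norm_num) (9 / 4) (1) (1) (1) _ _ _ _
    (by norm_num [thB]) (by norm_num [thB]) (by norm_num [thB]) (by norm_num [thB])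
    (by norm_num) (by norm_num) (by norm_num) (by norm_num)
    (kkc _ _ _) (kkc _ _ _) (kkc _ _ _) (kkc _ _ _)) (by norm_num [abs_of_pos, abs_of_neg])

theorem bc_m15 : bC thB (Real.pi / 40) (Real.pi / 10) (-15) ≤ 3048 / 10000 := by
  refine le_trans (bcb _ _ thB (-15) (by norm_num) (1) (1) (1) (3 / 4) _ _ _ _
    (by norm_num [thB]) (by norm_num [thB]) (by norm_num [thB]) (by norm_num [thB])
    (by norm_num) (by norm_num) (by norm_num) (by norm_num)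
    (kkc _ _ _) (kkc _ _ _) (kkc _ _ _) (kkc _ _ _)) (by norm_num [abs_of_pos, abs_of_neg])

theorem case7 (u w : ℂ) :
    (bC thB (Real.pi / 40) (Real.pi / 10) (2 * ((7 : ℕ) : ℤ) + 3) + 17 / 100 + if (7 : ℕ) = 0 then 3 else 0) * ‖u‖ ^ 2
    + (bC thB (Real.pi / 40) (Real.pi / 10) (-(2 * ((7 : ℕ) : ℤ) + 1)) + 17 / 100 + if (7 : ℕ) = 0 then 3 else 0) * ‖w‖ ^ 2
  ≤ QB (1 / 20) (33 / 200) (Real.pi / 40) (Real.pi / 10) 7 u w + 891 / 100 * (‖u‖ ^ 2 + ‖w‖ ^ 2)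
    - FSc (1 / 20) (33 / 200) / 4 * ‖u + (starRingEnd ℂ) w‖ ^ 2 := by
  obtain ⟨h1, h2⟩ := s3b
  have hF : FSc (1 / 20) (33 / 200) = 2 + 1 / 20 * Real.sqrt 3 - 33 / 100 := by
    unfold FSc
    ring
  set s := 1 / 20 * Real.sqrt 3 with hs
  refine blk1 _ _ thB 7 (by norm_num) (17) (-15) 7 (by norm_num) (by norm_num) (by norm_num)
    (2 - s + 33 / 100) (2 - s + (-33 / 200)) (by unfold gg chu; norm_num [hs]) (by unfold gg chw; norm_num [hs])
    (2909 / 10000) (3048 / 10000) 0 1 (4704 / 1000) (5051 / 1000) (2533 / 1000) bc_p17 bc_m15 (gam01 _ _ _).1 (gam01 _ _ _).2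
    (by norm_num) (by norm_num) (by norm_num) ?_ ?_ ?_ u w
  · rw [hF]
    nlinarith [h1, h2]
  · rw [hF]
    nlinarith [h1, h2]
  · rw [hF, abs_le]
    constructor
    · nlinarith [h1, h2]
    · nlinarith [h1, h2]

theorem bc_p19 : bC thB (Real.pi / 40) (Real.pi / 10) (19) ≤ 2492 / 10000 := by
  refine le_trans (bcb _ _ thB (19) (by norm_num) (3 / 2) (1) (1) (1) _ _ _ _
    (by norm_num [thB]) (by norm_num [thB]) (by norm_num [thB]) (by norm_num [thB])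
    (by norm_num) (by norm_num) (by norm_num) (by norm_num)
    (kkc _ _ _) (kkc _ _ _) (kkc _ _ _) (kkc _ _ _)) (by norm_num [abs_of_pos, abs_of_neg])

theorem bc_m17 : bC thB (Real.pi / 40) (Real.pi / 10) (-17) ≤ 2757 / 10000 := by
  refine le_trans (bcb _ _ thB (-17) (by norm_num) (1) (1) (1) (5 / 4) _ _ _ _
    (by norm_num [thB]) (by norm_num [thB]) (by norm_num [thB]) (by norm_num [thB])
    (by norm_num) (by norm_num) (by norm_num) (by norm_num)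
    (kkc _ _ _) (kkc _ _ _) (kkc _ _ _) (kkc _ _ _)) (by norm_num [abs_of_pos, abs_of_neg])

theorem case8 (u w : ℂ) :
    (bC thB (Real.pi / 40) (Real.pi / 10) (2 * ((8 : ℕ) : ℤ) + 3) + 17 / 100 + if (8 : ℕ) = 0 then 3 else 0) * ‖u‖ ^ 2
    + (bC thB (Real.pi / 40) (Real.pi / 10) (-(2 * ((8 : ℕ) : ℤ) + 1)) + 17 / 100 + if (8 : ℕ) = 0 then 3 else 0) * ‖w‖ ^ 2
  ≤ QB (1 / 20) (33 / 200) (Real.pi / 40) (Real.pi / 10) 8 u w + 891 / 100 * (‖u‖ ^ 2 + ‖w‖ ^ 2)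
    - FSc (1 / 20) (33 / 200) / 4 * ‖u + (starRingEnd ℂ) w‖ ^ 2 := by
  obtain ⟨h1, h2⟩ := s3b
  have hF : FSc (1 / 20) (33 / 200) = 2 + 1 / 20 * Real.sqrt 3 - 33 / 100 := by
    unfold FSc
    ring
  set s := 1 / 20 * Real.sqrt 3 with hs
  refine blk1 _ _ thB 8 (by norm_num) (19) (-17) 8 (by norm_num) (by norm_num) (by norm_num)
    (2 + s + (-33 / 200)) (2 + s + (-33 / 200)) (by unfold gg chu; norm_num [hs]) (by unfold gg chw; norm_num [hs])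
    (2492 / 10000) (2757 / 10000) 0 1 (5601 / 1000) (4616 / 1000) (2359 / 1000) bc_p19 bc_m17 (gam01 _ _ _).1 (gam01 _ _ _).2
    (by norm_num) (by norm_num) (by norm_num) ?_ ?_ ?_ u w
  · rw [hF]
    nlinarith [h1, h2]
  · rw [hF]
    nlinarith [h1, h2]
  · rw [hF, abs_le]
    constructor
    · nlinarith [h1, h2]
    · nlinarith [h1, h2]

theorem th1 (m : ℤ) (h : m ≤ -10 ∨ 12 ≤ m) : thB m = 1 := by
  unfold thB
  rw [if_neg (by omega), if_neg (by omega), if_neg (by omega), if_neg (by omega), if_neg (by omega),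
    if_neg (by omega), if_neg (by omega), if_neg (by omega), if_neg (by omega), if_neg (by omega)]

theorem ckk (d ρ : ℝ) (j : ℤ) (N : ℕ) (hN : 0 < N) (h : (N : ℤ) ≤ |j|) : |KK d ρ j| ≤ 4 / (N : ℝ) := by
  refine le_trans (kkc d ρ j) ?_
  have h1 : (N : ℝ) ≤ |(j : ℝ)| := by
    have : ((N : ℤ) : ℝ) ≤ ((|j| : ℤ) : ℝ) := by exact_mod_cast h
    push_cast at this
    exact this
  have h2 : (0 : ℝ) < N := by exact_mod_cast hN
  exact div_le_div_of_nonneg_left (by norm_num) h2 h1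

theorem bct1 (d ρ : ℝ) (n : ℤ) (h : 21 ≤ n) : bC thB d ρ n ≤ 22 / 100 := by
  refine le_trans (bcb d ρ thB n (by omega) 1 1 1 1 (4 / (33 : ℕ)) (4 / (39 : ℕ)) (4 / (45 : ℕ)) (4 / (51 : ℕ))
    (th1 _ (by omega)) (th1 _ (by omega)) (th1 _ (by omega)) (th1 _ (by omega))
    (by norm_num) (by norm_num) (by norm_num) (by norm_num) ?_ ?_ ?_ ?_) (by norm_num)
  · exact ckk d ρ _ 33 (by norm_num) (by rw [abs_of_pos (by omega)]; push_cast; omega)
  · exact ckk d ρ _ 39 (by norm_num) (by rw [abs_of_pos (by omega)]; push_cast; omega)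
  · exact ckk d ρ _ 45 (by norm_num) (by rw [abs_of_pos (by omega)]; push_cast; omega)
  · exact ckk d ρ _ 51 (by norm_num) (by rw [abs_of_pos (by omega)]; push_cast; omega)

theorem bct2 (d ρ : ℝ) (n : ℤ) (h : n ≤ -19) : bC thB d ρ n ≤ 25 / 100 := by
  refine le_trans (bcb d ρ thB n (by omega) 1 1 1 1 (4 / (47 : ℕ)) (4 / (41 : ℕ)) (4 / (35 : ℕ)) (4 / (29 : ℕ))
    (th1 _ (by omega)) (th1 _ (by omega)) (th1 _ (by omega)) (th1 _ (by omega))
    (by norm_num) (by norm_num) (by norm_num) (by norm_num) ?_ ?_ ?_ ?_) (by norm_num)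
  · exact ckk d ρ _ 47 (by norm_num) (by rw [abs_of_neg (by omega)]; push_cast; omega)
  · exact ckk d ρ _ 41 (by norm_num) (by rw [abs_of_neg (by omega)]; push_cast; omega)
  · exact ckk d ρ _ 35 (by norm_num) (by rw [abs_of_neg (by omega)]; push_cast; omega)
  · exact ckk d ρ _ 29 (by norm_num) (by rw [abs_of_neg (by omega)]; push_cast; omega)

/-- the tail, given the two coefficients -/
theorem tail (d ρ : ℝ) (k : ℕ) (hk : 9 ≤ k) (A D : ℝ)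
    (hA : gg (1 / 20) k + 33 / 200 * chu k = A) (hD : gg (1 / 20) k + 33 / 200 * chw k = D)
    (hA1 : 17 / 10 ≤ A) (hD1 : 17 / 10 ≤ D) (hAD : A ≤ 19217 / 10000 ∧ D ≤ 24167 / 10000 ∨
      A ≤ 24167 / 10000 ∧ D ≤ 19217 / 10000) (u w : ℂ) :
    (bC thB d ρ (2 * (k : ℤ) + 3) + 17 / 100 + if k = 0 then 3 else 0) * ‖u‖ ^ 2
    + (bC thB d ρ (-(2 * (k : ℤ) + 1)) + 17 / 100 + if k = 0 then 3 else 0) * ‖w‖ ^ 2
  ≤ QB (1 / 20) (33 / 200) d ρ k u w + 891 / 100 * (‖u‖ ^ 2 + ‖w‖ ^ 2)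
    - FSc (1 / 20) (33 / 200) / 4 * ‖u + (starRingEnd ℂ) w‖ ^ 2 := by
  obtain ⟨h1, h2⟩ := s3b
  have hF : FSc (1 / 20) (33 / 200) = 2 + 1 / 20 * Real.sqrt 3 - 33 / 100 := by
    unfold FSc
    ring
  set s := 1 / 20 * Real.sqrt 3 with hs
  have hkr : (9 : ℝ) ≤ (k : ℝ) := by exact_mod_cast hk
  have r1 : (2 * (k : ℝ) + 1) / (2 * k + 3) ≤ 1 := by
    rw [div_le_one (by linarith)]
    linarith
  have r2 : (2 * (k : ℝ) + 3) / (2 * k + 1) ≤ 21 / 19 := by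
    rw [div_le_div_iff₀ (by linarith) (by norm_num)]
    linarith
  have r3 : (1 + 38 / 10 * 1) / (2 * (k : ℝ) + 1) ≤ 48 / 190 := by
    rw [div_le_div_iff₀ (by linarith) (by norm_num)]
    linarith
  have r4 : 0 ≤ (1 + 38 / 10 * 0) / (2 * (k : ℝ) + 3) := by positivity
  have q1 : A ^ 2 / (132 / 100) * ((2 * (k : ℝ) + 1) / (2 * k + 3)) ≤ A ^ 2 / (132 / 100) * 1 :=
    mul_le_mul_of_nonneg_left r1 (by positivity)
  have q2 : D ^ 2 / (132 / 100) * ((2 * (k : ℝ) + 3) / (2 * k + 1)) ≤ D ^ 2 / (132 / 100) * (21 / 19) :=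
    mul_le_mul_of_nonneg_left r2 (by positivity)
  rcases hAD with ⟨ha, hd⟩ | ⟨ha, hd⟩
  · have hA2 : A ^ 2 ≤ (19217 / 10000) ^ 2 := pow_le_pow_left₀ (by linarith) ha 2
    have hD2 : D ^ 2 ≤ (24167 / 10000) ^ 2 := pow_le_pow_left₀ (by linarith) hd 2
    have hAD1 : A * D ≤ 19217 / 10000 * (24167 / 10000) := mul_le_mul ha hd (by linarith) (by norm_num)
    have hAD2 : 17 / 10 * (17 / 10) ≤ A * D := mul_le_mul hA1 hD1 (by norm_num) (by linarith)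
    refine blk1 d ρ thB k (by omega) _ _ _ rfl rfl rfl A D hA hD (22 / 100) (25 / 100) 0 1
      (52 / 10) (28 / 10) (31 / 10) (bct1 d ρ _ (by omega)) (bct2 d ρ _ (by omega))
      (gam01 _ _ _).1 (gam01 _ _ _).2 (by norm_num) (by norm_num) (by norm_num) ?_ ?_ ?_ u w
    · rw [hF]
      linarith
    · rw [hF]
      linarith
    · rw [hF, abs_le]
      constructor
      · linarith
      · linarith
  · have hA2 : A ^ 2 ≤ (24167 / 10000) ^ 2 := pow_le_pow_left₀ (by linarith) ha 2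
    have hD2 : D ^ 2 ≤ (19217 / 10000) ^ 2 := pow_le_pow_left₀ (by linarith) hd 2
    have hAD1 : A * D ≤ 24167 / 10000 * (19217 / 10000) := mul_le_mul ha hd (by linarith) (by norm_num)
    have hAD2 : 17 / 10 * (17 / 10) ≤ A * D := mul_le_mul hA1 hD1 (by norm_num) (by linarith)
    refine blk1 d ρ thB k (by omega) _ _ _ rfl rfl rfl A D hA hD (22 / 100) (25 / 100) 0 1
      (36 / 10) (46 / 10) (31 / 10) (bct1 d ρ _ (by omega)) (bct2 d ρ _ (by omega))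
      (gam01 _ _ _).1 (gam01 _ _ _).2 (by norm_num) (by norm_num) (by norm_num) ?_ ?_ ?_ u w
    · rw [hF]
      linarith
    · rw [hF]
      linarith
    · rw [hF, abs_le]
      constructor
      · linarith
      · linarith

theorem ggb (k : ℕ) : 19133 / 10000 ≤ gg (1 / 20) k ∧ gg (1 / 20) k ≤ 20867 / 10000 := by
  obtain ⟨h1, h2⟩ := s3b
  unfold gg
  rcases neg_one_pow_eq_or ℝ (k + 1) with h | h
  · rw [h]
    constructor <;> linarith
  · rw [h]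
    constructor <;> linarith

theorem hBLKB (hT : StTrg) : StBlkB := by
  intro k u w
  rcases k with _ | _ | _ | _ | _ | _ | _ | _ | _ | k
  · exact case0 hT u w
  · exact case1 hT u w
  · exact case2 hT u w
  · exact case3 hT u w
  · exact case4 u w
  · exact case5 u w
  · exact case6 u w
  · exact case7 u w
  · exact case8 u w
  · have hg := ggb (k + 1 + 1 + 1 + 1 + 1 + 1 + 1 + 1 + 1)
    refine tail _ _ _ (by omega) _ _ rfl rfl ?_ ?_ ?_ u w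
    · unfold chu
      split_ifs <;> linarith [hg.1]
    · unfold chw
      split_ifs <;> linarith [hg.1]
    · unfold chu chw
      split_ifs with c1 c2 c3
      · omega
      · right; constructor <;> linarith [hg.2]
      · left; constructor <;> linarith [hg.2]
      · left; constructor <;> linarith [hg.2]

end Pool.Agent.Helper7.RC.B
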